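import Pool.Agent.Lib.MP_7d48f8_nt.D.D0
import Pool.Agent.Lib.MP_7d48f8_nt.D.D1
import Pool.Agent.Lib.MP_7d48f8_nt.D.D2
import Pool.Agent.Lib.MP_7d48f8_nt.D.D3
import Pool.Agent.Lib.MP_7d48f8_nt.C.Top

/-! The certificate. -/

set_option maxRecDepth 100000

noncomputable section

namespace Pool.Agent.Lib.MP_7d48f8_nt

def L1 : List Tm :=
  [tm0, tm2, tm3, tm4, tm5, tm6, tm7, tm8, tm9, tm10, tm11, tm12, tm13, tm14, tm15, tm16, tm17,
  tm18, tm19, tm20, tm21]

def B1 : List Bd :=
  [⟨6, 21, 1237940014088610233488244736, 1237940041965388006600651264,
    1237940048272450011335503872⟩,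
  ⟨5, 21, 1237940011342900767028236288, 1237940038664206104686411776,
    1237940047154615908930306048⟩,
  ⟨6, 20, 1237940006879257921516216320, 1237940037733012806530961408,
    1237940046413520853536584704⟩,
  ⟨7, 19, 1237940003253913028871086080, 1237940044345227346662063104,
    1237940047827707563787983872⟩,
  ⟨8, 18, 1237940012949846391311568896, 1237940052983293382894972928,
    1237940051780445420808050688⟩,
  ⟨7, 18, 1237939996031220784608346112, 1237940043156153768787742208,
    1237940046808191643306636288⟩,
  ⟨9, 17, 1237940019771772144978288640, 1237940049696329223732041728,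
    1237940048387977630804228096⟩,
  ⟨8, 17, 1237940002987480499047632896, 1237940049195154724369580032,
    1237940049111050570086449152⟩,
  ⟨9, 16, 1237940007025892837105934336, 1237940051393069323590295552,
    1237940050264312629174153216⟩,
  ⟨10, 15, 1237940013386551890806697984, 1237940050686748012084942848,
    1237940049465855690201874432⟩,
  ⟨11, 14, 1237940020433129811187707904, 1237940050802021905799876608,
    1237940046620897183619792896⟩,
  ⟨10, 14, 1237940007086203524254937088, 1237940048480617057278521344,
    1237940045756840752720220160⟩,
  ⟨12, 13, 1237940029259239988203223040, 1237940044903467583696519168,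
    1237940043693370190879369728⟩,
  ⟨11, 13, 1237940013048545161558065152, 1237940047994755603130746880,
    1237940045584131633080612864⟩,
  ⟨12, 12, 1237940028255398682190671872, 1237940043320962129327142400,
    1237940043320962129327142400⟩]

def LL : List Tm := L1 ++ B1.flatMap Bd.terms ++
  gT 933078051373930881 466217320031908481 163915799830213857

theorem ok_all : okAll L1 B1 933078051373930881 466217320031908481 163915799830213857 = true := by
  decide +kernel

theorem ok_tot : okTot LL = true := by decide +kernel

end Pool.Agent.Lib.MP_7d48f8_nt
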