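import Pool.Agent.Lib.MP_7d48f8_nt.D.K18

/-! One part of the search. -/

set_option maxRecDepth 100000

namespace Pool.Agent.Lib.MP_7d48f8_nt

theorem ck21 : chk LL 0 16 22 21 = true := by decide +kernel

end Pool.Agent.Lib.MP_7d48f8_nt
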