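import Pool.Agent.Lib.MP_7d48f8_nt.D.K20

/-! One part of the search. -/

set_option maxRecDepth 100000

namespace Pool.Agent.Lib.MP_7d48f8_nt

theorem ck23 : chk LL 20 44 1 0 = true := by decide +kernel

end Pool.Agent.Lib.MP_7d48f8_nt
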