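import Pool.Agent.Lib.MP_7d48f8_nt.D.K21
import Pool.Agent.Lib.MP_7d48f8_nt.D.K22
import Pool.Agent.Lib.MP_7d48f8_nt.D.K23

/-! The theorem. -/

namespace Pool.Agent.Lib.MP_7d48f8_nt

theorem main : ∀ᶠ x : ℝ in Filter.atTop, ∃ n p : ℕ, x < n ∧ (n : ℝ) ≤ x + √x ∧ p.Prime ∧ p ∣ n ∧
    x ^ (3 / 4 : ℝ) < p := by
  refine top ok_all ok_tot fun r h1 h2 => ?_
  rcases le_or_gt r 16 with h3 | h3
  · refine ⟨0, 16, 22, h1, h3, by omega, by omega, fun k hk => ?_⟩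
    interval_cases k
    exacts [ck0, ck1, ck2, ck3, ck4, ck5, ck6, ck7, ck8, ck9, ck10, ck11,
      ck12, ck13, ck14, ck15, ck16, ck17, ck18, ck19, ck20, ck21]
  rcases le_or_gt r 20 with h4 | h4
  · exact ⟨16, 20, 1, h3, h4, by omega, by omega, fun k hk => Nat.lt_one_iff.1 hk ▸ ck22⟩
  · exact ⟨20, 44, 1, h4, by omega, by omega, by omega, fun k hk => Nat.lt_one_iff.1 hk ▸ ck23⟩

end Pool.Agent.Lib.MP_7d48f8_nt
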